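import Mathlib

open Finset

namespace H11.LSA

variable {n : ℕ} (G : SimpleGraph (Fin n)) [DecidableRel G.Adj]

/-- The neighbours of `v` of minimum load. -/
def best (X : Fin n → ℕ) (v : Fin n) : Finset (Fin n) :=
  univ.filter fun u => G.Adj v u ∧ ∀ u', G.Adj v u' → X u ≤ X u'

/-- `place X k v w`: the probability that a ball now at `v`, with at most `k` moves left, is placed
at `w`, the loads being `X`. Each move lowers the load, so `k = X v` moves always suffice. -/
def place (X : Fin n → ℕ) : ℕ → Fin n → Fin n → ℚ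
  | 0, v, w => if v = w then 1 else 0
  | k + 1, v, w =>
    if ∃ u, G.Adj v u ∧ X u < X v then (∑ u ∈ best G X v, place X k u w) / (best G X v).card
    else if v = w then 1 else 0

/-- `tail l m X`: the probability that, starting from loads `X`, the maximum load after `m` more
balls (with uniform birthplaces) is at least `l`. -/
def tail (l : ℕ) : ℕ → (Fin n → ℕ) → ℚ
  | 0, X => if ∃ v, l ≤ X v then 1 else 0
  | m + 1, X => ∑ w, (∑ v, place G X (X v) v w) / n * tail l m (Function.update X w (X w + 1))

def G0 : SimpleGraph (Fin 5) := SimpleGraph.fromRel fun a b => a < 2 ∧ 2 ≤ b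

def G1 : SimpleGraph (Fin 5) := SimpleGraph.fromRel fun a _ => a < 2

instance : DecidableRel G0.Adj := fun a b => by unfold G0; infer_instance

instance : DecidableRel G1.Adj := fun a b => by unfold G1; infer_instance

end H11.LSA

open H11.LSA

theorem Pool.Agent.Results.MP_61ae3e_pr.Counter.result :
    ∃ (G G' : SimpleGraph (Fin 5)) (_ : DecidableRel G.Adj) (_ : DecidableRel G'.Adj), G < G' ∧
      tail G 2 4 0 = 44 / 625 ∧ tail G' 2 4 0 = 51 / 625 ∧ tail G 2 4 0 < tail G' 2 4 0 := by
  have h1 : tail G0 2 4 0 = 44 / 625 := by decide +kernel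
  have h2 : tail G1 2 4 0 = 51 / 625 := by decide +kernel
  refine ⟨G0, G1, inferInstance, inferInstance, lt_of_le_of_ne ?_ fun h => ?_, h1, h2, ?_⟩
  · exact (by decide : ∀ a b, G0.Adj a b → G1.Adj a b)
  · exact (by decide : ¬ G0.Adj 0 1) (h ▸ (by decide : G1.Adj 0 1))
  · rw [h1, h2]; norm_num
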